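import Pool.Agent.Lib.H62u.RB.RB_Top
set_option autoImplicit false
namespace H62
theorem RB_chk1 : go1 (ulin1 (nat_lit 1048576) (nat_lit 509952)) 8 RB_c1 C4.c2 RB_c0 = true := by decide +kernel
end H62
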