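import Pool.Agent.Lib.H62u.RB.RB_Top
set_option autoImplicit false
namespace H62
theorem RB_chk0 : go0 (ulin2 (nat_lit 1048576) (nat_lit 509952) (nat_lit 652798)) 8 RB_c0 C4.c0 RB_c2 RB_root = true := by decide +kernel
end H62
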