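import Pool.Agent.Lib.H62u.RB.RB_0
set_option autoImplicit false
set_option linter.all false
namespace H62
noncomputable def RB_c0 : (Tri (Tri (Tri (Tri (Tri (Tri (Tri (Tri B0)))))))) := ⟨⟨
RB_0,RB_9,RB_18⟩,⟨
RB_3,RB_12,RB_21⟩,⟨
RB_6,RB_15,RB_24⟩⟩
noncomputable def RB_c1 : (Tri (Tri (Tri (Tri (Tri (Tri (Tri (Tri B0)))))))) := ⟨⟨
RB_1,RB_10,RB_19⟩,⟨
RB_4,RB_13,RB_22⟩,⟨
RB_7,RB_16,RB_25⟩⟩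
noncomputable def RB_c2 : (Tri (Tri (Tri (Tri (Tri (Tri (Tri (Tri B0)))))))) := ⟨⟨
RB_2,RB_11,RB_20⟩,⟨
RB_5,RB_14,RB_23⟩,⟨
RB_8,RB_17,RB_26⟩⟩
noncomputable def RB_root : (Tri (Tri (Tri (Tri (Tri (Tri (Tri (Tri (Tri B0))))))))) := ⟨RB_c0,RB_c1,RB_c2⟩
end H62
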